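import Pool.Agent.helper57.GN.GN6a
import Pool.Agent.helper57.GN.GN6b

/-!
# GN9b: `B` or `D` acting on a group of order `v ^ 2`
-/

set_option autoImplicit false

namespace Pool.Agent.helper74.GN

namespace N9b

open Multiplicative

/-- multiplication by a unit of a field, as an automorphism of the additive group -/
def mu {F : Type} [Field F] : Fˣ →* MulAut (Multiplicative F) where
  toFun u := AddEquiv.toMultiplicative (DistribMulAction.toAddEquiv F u)
  map_one' := by
    refine MulEquiv.ext fun x => ?_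
    show ofAdd ((1 : F) * toAdd x) = x
    rw [one_mul]; rfl
  map_mul' a b := by
    refine MulEquiv.ext fun x => ?_
    show ofAdd ((((a * b : Fˣ)) : F) * toAdd x) = ofAdd ((a : F) * ((b : F) * toAdd x))
    rw [Units.val_mul, mul_assoc]

lemma mu_apply {F : Type} [Field F] (u : Fˣ) (x : Multiplicative F) :
    mu u x = ofAdd ((u : F) * toAdd x) := rfl

lemma mu_pow_apply {F : Type} [Field F] (u : Fˣ) (n : ℕ) (x : Multiplicative F) :
    (mu u ^ n) x = ofAdd ((u : F) ^ n * toAdd x) := by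
  rw [← map_pow, mu_apply, Units.val_pow_eq_pow_val]

lemma mu_inv_apply {F : Type} [Field F] (u : Fˣ) (x : Multiplicative F) :
    (mu u)⁻¹ x = ofAdd ((u : F)⁻¹ * toAdd x) := by
  rw [← map_inv, mu_apply, Units.val_inv_eq_inv_val]

lemma mu_ne_one {F : Type} [Field F] (u : Fˣ) (hu : u ≠ 1) : mu u ≠ 1 := by
  intro h
  apply hu
  have h1 := congrArg (fun f : MulAut (Multiplicative F) => toAdd (f (ofAdd 1))) h
  simp only [mu_apply, MulAut.one_apply, toAdd_ofAdd, mul_one] at h1
  exact Units.ext h1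

section

variable {v : ℕ} [Fact v.Prime]

lemma card_gf2 : Nat.card (GaloisField v 2) = v ^ 2 := GaloisField.card v 2 (by norm_num)

/-- An element of order `r` dividing `v ^ 2 - 1`. -/
lemma exists_unit {r : ℕ} (hr : r ∣ v ^ 2 - 1) : ∃ u : (GaloisField v 2)ˣ, orderOf u = r := by
  have hf : Finite (GaloisField v 2) := by
    refine Nat.finite_of_card_ne_zero ?_
    rw [card_gf2]
    exact pow_ne_zero _ (Fact.out : v.Prime).ne_zero
  obtain ⟨g, hg⟩ := IsCyclic.exists_generator (α := (GaloisField v 2)ˣ)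
  have hcard : orderOf g = v ^ 2 - 1 := by
    rw [orderOf_eq_card_of_forall_mem_zpowers hg, Nat.card_units, card_gf2]
  obtain ⟨m, hm⟩ := hr
  have hv := (Fact.out : v.Prime).two_le
  have hpos : 0 < v ^ 2 - 1 := by
    have : 2 ^ 2 ≤ v ^ 2 := Nat.pow_le_pow_left hv 2
    omega
  have hm0 : m ≠ 0 := by rintro rfl; omega
  refine ⟨g ^ m, ?_⟩
  rw [orderOf_pow' g hm0, hcard, hm, Nat.gcd_comm, Nat.gcd_mul_left_right]
  exact Nat.mul_div_cancel _ (Nat.pos_of_ne_zero hm0)

/-- an additive map commuting with the multiplication by `ζ`, `ζ` not in the prime field, is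
linear -/
lemma linear_of_comm (ζ : GaloisField v 2) (hζ : ζ ^ v ≠ ζ)
    (f : GaloisField v 2 →+ GaloisField v 2) (hf : ∀ x, f (ζ * x) = ζ * f x) (x : GaloisField v 2) :
    f x = f 1 * x := by
  classical
  have hv := (Fact.out : v.Prime)
  have hfin : Finite (GaloisField v 2) := by
    refine Nat.finite_of_card_ne_zero ?_
    rw [card_gf2]
    exact pow_ne_zero _ hv.ne_zero
  let R : Subring (GaloisField v 2) :=
    { carrier := {a | ∀ y, f (a * y) = a * f y}
      mul_mem' := by
        intro a b ha hb y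
        rw [mul_assoc, ha, hb, mul_assoc]
      one_mem' := by intro y; rw [one_mul, one_mul]
      add_mem' := by
        intro a b ha hb y
        rw [add_mul, map_add, ha, hb, add_mul]
      zero_mem' := by intro y; rw [zero_mul, map_zero, zero_mul]
      neg_mem' := by
        intro a ha y
        rw [neg_mul, map_neg, ha, neg_mul] }
  have hcard : Nat.card R ∣ v ^ 2 := by
    have := AddSubgroup.card_addSubgroup_dvd_card R.toAddSubgroup
    rw [card_gf2] at this
    exact this
  obtain ⟨i, hi, hci⟩ := (Nat.dvd_prime_pow hv).1 hcard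
  have hmem : ζ ∈ R := hf
  have htop : ∀ a : GaloisField v 2, a ∈ R := by
    interval_cases i
    · exfalso
      rw [pow_zero, Nat.card_eq_one_iff_unique] at hci
      obtain ⟨hs, _⟩ := hci
      have : (1 : R) = 0 := Subsingleton.elim _ _
      exact one_ne_zero this
    · exfalso
      apply hζ
      haveI : Fintype R := Fintype.ofFinite R
      letI : Field R := Fintype.fieldOfDomain R
      have h1 := FiniteField.pow_card (⟨ζ, hmem⟩ : R)
      rw [← Nat.card_eq_fintype_card, hci, pow_one] at h1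
      exact congrArg Subtype.val h1
    · have h1 : R.toAddSubgroup = ⊤ := by
        apply AddSubgroup.eq_top_of_card_eq
        rw [card_gf2]
        exact hci
      intro a
      have : a ∈ R.toAddSubgroup := by rw [h1]; trivial
      exact this
  have := htop x 1
  rw [mul_one] at this
  rw [this, mul_comm]

/-- the automorphisms commuting with an automorphism of order `r` -/
lemma core {r : ℕ} (hr : r.Prime) (h2 : 2 < r) (hvr : (v : ZMod r) = -1) (H : Type) [Group H]
    (hH : Nat.card H = v ^ 2) (g : MulAut H) (hg : g ^ r = 1) (hg1 : g ≠ 1) :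
    ∃ e : H ≃* Multiplicative (GaloisField v 2), ∀ c : MulAut H, Commute g c → ∀ n : ℕ,
      c ^ n = 1 → ∃ l : GaloisField v 2, l ^ n = 1 ∧ ∀ x, e (c x) = ofAdd (l * toAdd (e x)) := by
  haveI : Fact r.Prime := ⟨hr⟩
  haveI : Fact (2 < r) := ⟨h2⟩
  have hne : (-1 : ZMod r) ≠ 1 := ZMod.neg_one_ne_one
  have hrv : r ≠ v := by
    rintro rfl
    rw [ZMod.natCast_self] at hvr
    have : (1 : ZMod r) = 0 := by
      have := congrArg Neg.neg hvr
      simpa using this.symm
    exact one_ne_zero this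
  obtain ⟨e, ζ, hord, he⟩ := sing (p := v) (r := r) (d := 2) hr hrv (by norm_num) (by norm_num)
    (by rw [hvr]; ring) (by
      intro j hj0 hj2
      have : j = 1 := by omega
      subst this
      rw [pow_one, hvr]
      exact hne) H hH g hg hg1
  have hζ : (ζ : GaloisField v 2) ^ v ≠ ζ := by
    intro h
    have h1 : ζ ^ v = ζ := Units.ext (by rw [Units.val_pow_eq_pow_val, h])
    have hv := (Fact.out : v.Prime)
    have h3 : ζ ^ (v - 1) = 1 := by
      have h4 : ζ ^ (v - 1) * ζ = 1 * ζ := by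
        rw [← pow_succ, Nat.sub_add_cancel hv.one_le, h1, one_mul]
      exact mul_right_cancel h4
    have h5 := orderOf_dvd_of_pow_eq_one h3
    rw [hord] at h5
    have h6 : ((v - 1 : ℕ) : ZMod r) = 0 := (ZMod.natCast_eq_zero_iff _ _).2 h5
    rw [Nat.cast_sub hv.one_le, hvr, Nat.cast_one] at h6
    apply hne
    linear_combination h6
  refine ⟨e, fun c hc n hn => ?_⟩
  let f : GaloisField v 2 →+ GaloisField v 2 :=
    { toFun := fun a => toAdd (e (c (e.symm (ofAdd a))))
      map_zero' := by simp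
      map_add' := by intro a b; simp }
  have hf : ∀ a, f ((ζ : GaloisField v 2) * a) = ζ * f a := by
    intro a
    show toAdd (e (c (e.symm (ofAdd ((ζ : GaloisField v 2) * a))))) =
      ζ * toAdd (e (c (e.symm (ofAdd a))))
    have h1 : e.symm (ofAdd ((ζ : GaloisField v 2) * a)) = g (e.symm (ofAdd a)) := by
      rw [MulEquiv.symm_apply_eq]
      have := he (e.symm (ofAdd a))
      rw [MulEquiv.apply_symm_apply, toAdd_ofAdd] at this
      rw [← this]
      rfl
    have h2 : c (g (e.symm (ofAdd a))) = g (c (e.symm (ofAdd a))) := by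
      have := congrArg (fun k : MulAut H => k (e.symm (ofAdd a))) hc.eq
      exact this.symm
    rw [h1, h2, he]
  have hl := linear_of_comm (ζ : GaloisField v 2) hζ f hf
  have hx : ∀ x, e (c x) = ofAdd (f 1 * toAdd (e x)) := by
    intro x
    have h1 := hl (toAdd (e x))
    rw [← h1]
    show e (c x) = ofAdd (toAdd (e (c (e.symm (ofAdd (toAdd (e x)))))))
    simp
  refine ⟨f 1, ?_, hx⟩
  have hpow : ∀ m : ℕ, ∀ x, e ((c ^ m) x) = ofAdd ((f 1) ^ m * toAdd (e x)) := by
    intro m
    induction m with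
    | zero => intro x; rw [pow_zero, pow_zero, one_mul]; rfl
    | succ m ih =>
      intro x
      rw [pow_succ, MulAut.mul_apply, ih, hx, toAdd_ofAdd, pow_succ, mul_assoc]
  have h1 := hpow n (e.symm (ofAdd 1))
  rw [hn, MulAut.one_apply, MulEquiv.apply_symm_apply, toAdd_ofAdd, mul_one] at h1
  exact (ofAdd.injective h1).symm

lemma pow_val {F : Type} [Field F] {r : ℕ} (u : Fˣ) (hu : orderOf u = r) (hr : 0 < r) (l : F)
    (hl : l ^ r = 1) : ∃ i : ZMod r, l = (u : F) ^ i.val := by
  haveI : NeZero r := ⟨hr.ne'⟩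
  have hp : IsPrimitiveRoot (u : F) r := by
    rw [IsPrimitiveRoot.coe_units_iff]
    rw [← hu]
    exact IsPrimitiveRoot.orderOf u
  obtain ⟨i, hi, h⟩ := hp.eq_pow_of_pow_eq_one hl
  refine ⟨(i : ZMod r), ?_⟩
  rw [ZMod.val_natCast_of_lt hi, h]

lemma frob_equiv : ∃ e : Multiplicative (GaloisField v 2) ≃* Multiplicative (GaloisField v 2),
    ∀ x, e x = ofAdd (toAdd x ^ v) := by
  have hfin : Finite (GaloisField v 2) := by
    refine Nat.finite_of_card_ne_zero ?_
    rw [card_gf2]
    exact pow_ne_zero _ (Fact.out : v.Prime).ne_zero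
  let f : GaloisField v 2 →+ GaloisField v 2 := (frobenius (GaloisField v 2) v).toAddMonoidHom
  have hinj : Function.Injective f := frobenius_inj (GaloisField v 2) v
  have hbij : Function.Bijective f := Finite.injective_iff_bijective.1 hinj
  exact ⟨AddEquiv.toMultiplicative (AddEquiv.ofBijective f hbij), fun x => rfl⟩

end

end N9b

open N9b Multiplicative in
theorem blockVBD {B C D v : ℕ} (hB : B.Prime) (hC : C.Prime) (hD : D.Prime) (hv : v.Prime)
    (h2 : 2 < B ∧ 2 < C ∧ 2 < D) (hBC : B ≠ C) (hBD : B ≠ D) (hCD : C ≠ D)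
    (hvB : (v : ZMod B) = -1) (hvD : (v : ZMod D) = -1) (hvC : (v : ZMod C) = 1) :
    ∃ (A : Type) (_ : CommGroup A) (β γ δ : MulAut A), Nat.card A = v ^ 2 ∧
      Commute β γ ∧ Commute β δ ∧ Commute γ δ ∧ β ^ B = 1 ∧ γ ^ C = 1 ∧ δ ^ D = 1 ∧
      β ≠ 1 ∧ γ ≠ 1 ∧ δ ≠ 1 ∧
      (∀ (H : Type) [Group H], Nat.card H = v ^ 2 → ∀ b c d : MulAut H, b ^ B = 1 → c ^ C = 1 →
        d ^ D = 1 → Commute b c → Commute b d → Commute c d → ¬ (b = 1 ∧ d = 1) →
        ∃ (i : ZMod B) (j : ZMod C) (k : ZMod D) (e : H ≃* A), ∀ x,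
          e (b x) = (β ^ i.val) (e x) ∧ e (c x) = (γ ^ j.val) (e x) ∧
          e (d x) = (δ ^ k.val) (e x)) ∧
      (∃ e : A ≃* A, ∀ x, e (β⁻¹ x) = β (e x) ∧ e (γ x) = γ (e x) ∧ e (δ⁻¹ x) = δ (e x)) ∧
      (∀ (i i' : ZMod B) (j j' : ZMod C) (k k' : ZMod D), ¬ (i = 0 ∧ k = 0) →
        (∃ e : A ≃* A, ∀ x, e ((β ^ i.val) x) = (β ^ i'.val) (e x) ∧
          e ((γ ^ j.val) x) = (γ ^ j'.val) (e x) ∧ e ((δ ^ k.val) x) = (δ ^ k'.val) (e x)) →
        j = j' ∧ ((i = i' ∧ k = k') ∨ (i = -i' ∧ k = -k'))) := by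
  haveI : Fact v.Prime := ⟨hv⟩
  haveI : NeZero B := ⟨hB.ne_zero⟩
  haveI : NeZero C := ⟨hC.ne_zero⟩
  haveI : NeZero D := ⟨hD.ne_zero⟩
  obtain ⟨h2B, h2C, h2D⟩ := h2
  have hvs : v ^ 2 - 1 = (v + 1) * (v - 1) := by
    have := Nat.sq_sub_sq v 1
    simpa using this
  have dB1 : B ∣ v + 1 := by
    rw [← ZMod.natCast_eq_zero_iff]
    push_cast
    rw [hvB]; ring
  have dD1 : D ∣ v + 1 := by
    rw [← ZMod.natCast_eq_zero_iff]
    push_cast
    rw [hvD]; ring
  have dC1 : C ∣ v - 1 := by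
    rw [← ZMod.natCast_eq_zero_iff, Nat.cast_sub hv.one_le, hvC]
    simp
  obtain ⟨zB, hzB⟩ := exists_unit (v := v) (r := B) (by rw [hvs]; exact dB1.mul_right _)
  obtain ⟨zD, hzD⟩ := exists_unit (v := v) (r := D) (by rw [hvs]; exact dD1.mul_right _)
  obtain ⟨zC, hzC⟩ := exists_unit (v := v) (r := C) (by rw [hvs]; exact dC1.mul_left _)
  have pB : zB ^ (v + 1) = 1 := orderOf_dvd_iff_pow_eq_one.1 (hzB ▸ dB1)
  have pD : zD ^ (v + 1) = 1 := orderOf_dvd_iff_pow_eq_one.1 (hzD ▸ dD1)
  have pC : zC ^ (v - 1) = 1 := orderOf_dvd_iff_pow_eq_one.1 (hzC ▸ dC1)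
  have pCv : zC ^ v = zC := by
    have : zC ^ (v - 1 + 1) = zC := by rw [pow_succ, pC, one_mul]
    rwa [Nat.sub_add_cancel hv.one_le] at this
  have pBv : zB ^ v = zB⁻¹ := by
    rw [pow_succ] at pB
    exact eq_inv_of_mul_eq_one_left pB
  have pDv : zD ^ v = zD⁻¹ := by
    rw [pow_succ] at pD
    exact eq_inv_of_mul_eq_one_left pD
  have ne1 : ∀ (u : (GaloisField v 2)ˣ) (r : ℕ), 2 < r → orderOf u = r → u ≠ 1 := by
    rintro u r hr hu rfl
    rw [orderOf_one] at hu
    omega
  refine ⟨Multiplicative (GaloisField v 2), inferInstance, mu zB, mu zC, mu zD, ?_, ?_, ?_, ?_,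
    ?_, ?_, ?_, mu_ne_one _ (ne1 _ B h2B hzB), mu_ne_one _ (ne1 _ C h2C hzC),
    mu_ne_one _ (ne1 _ D h2D hzD), ?_, ?_, ?_⟩
  · exact card_gf2
  · exact (Commute.all zB zC).map mu
  · exact (Commute.all zB zD).map mu
  · exact (Commute.all zC zD).map mu
  · rw [← map_pow, ← hzB, pow_orderOf_eq_one, map_one]
  · rw [← map_pow, ← hzC, pow_orderOf_eq_one, map_one]
  · rw [← map_pow, ← hzD, pow_orderOf_eq_one, map_one]
  · intro H _ hH b c d hb hc hd hbc hbd hcd hne
    have key : ∃ e : H ≃* Multiplicative (GaloisField v 2),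
        (∃ l : GaloisField v 2, l ^ B = 1 ∧ ∀ x, e (b x) = ofAdd (l * toAdd (e x))) ∧
        (∃ l : GaloisField v 2, l ^ C = 1 ∧ ∀ x, e (c x) = ofAdd (l * toAdd (e x))) ∧
        (∃ l : GaloisField v 2, l ^ D = 1 ∧ ∀ x, e (d x) = ofAdd (l * toAdd (e x))) := by
      by_cases hb1 : b = 1
      · have hd1 : d ≠ 1 := fun h => hne ⟨hb1, h⟩
        obtain ⟨e, he⟩ := core hD h2D hvD H hH d hd hd1
        exact ⟨e, he b hbd.symm B hb, he c hcd.symm C hc, he d (Commute.refl d) D hd⟩
      · obtain ⟨e, he⟩ := core hB h2B hvB H hH b hb hb1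
        exact ⟨e, he b (Commute.refl b) B hb, he c hbc C hc, he d hbd D hd⟩
    obtain ⟨e, ⟨l1, hl1, h1⟩, ⟨l2, hl2, h2⟩, ⟨l3, hl3, h3⟩⟩ := key
    obtain ⟨i, hi⟩ := pow_val zB hzB hB.pos l1 hl1
    obtain ⟨j, hj⟩ := pow_val zC hzC hC.pos l2 hl2
    obtain ⟨k, hk⟩ := pow_val zD hzD hD.pos l3 hl3
    refine ⟨i, j, k, e, fun x => ⟨?_, ?_, ?_⟩⟩
    · rw [h1, mu_pow_apply, hi]
    · rw [h2, mu_pow_apply, hj]
    · rw [h3, mu_pow_apply, hk]
  · obtain ⟨e, he⟩ := frob_equiv (v := v)
    have cB : ((zB : GaloisField v 2)⁻¹) ^ v = zB := by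
      have := congrArg (fun u : (GaloisField v 2)ˣ => ((u⁻¹ : (GaloisField v 2)ˣ) : GaloisField v 2)) pBv
      simpa [Units.val_inv_eq_inv_val] using this
    have cD : ((zD : GaloisField v 2)⁻¹) ^ v = zD := by
      have := congrArg (fun u : (GaloisField v 2)ˣ => ((u⁻¹ : (GaloisField v 2)ˣ) : GaloisField v 2)) pDv
      simpa [Units.val_inv_eq_inv_val] using this
    have cC : (zC : GaloisField v 2) ^ v = zC := by
      rw [← Units.val_pow_eq_pow_val, pCv]
    refine ⟨e, fun x => ⟨?_, ?_, ?_⟩⟩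
    · rw [mu_inv_apply, he, he, mu_apply, toAdd_ofAdd, toAdd_ofAdd, mul_pow, cB]
    · rw [mu_apply, he, he, mu_apply, toAdd_ofAdd, toAdd_ofAdd, mul_pow, cC]
    · rw [mu_inv_apply, he, he, mu_apply, toAdd_ofAdd, toAdd_ofAdd, mul_pow, cD]
  · rintro i i' j j' k k' - ⟨e, he⟩
    let f : GaloisField v 2 ≃+ GaloisField v 2 := MulEquiv.toAdditive.symm.symm e
    have hf : ∀ a, f a = toAdd (e (ofAdd a)) := fun a => rfl
    have hfB : ∀ a, f ((zB : GaloisField v 2) ^ i.val * a) = (zB : GaloisField v 2) ^ i'.val * f a := by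
      intro a
      have := (he (ofAdd a)).1
      rw [mu_pow_apply, mu_pow_apply, toAdd_ofAdd] at this
      rw [hf, this]; rfl
    have hfC : ∀ a, f ((zC : GaloisField v 2) ^ j.val * a) = (zC : GaloisField v 2) ^ j'.val * f a := by
      intro a
      have := (he (ofAdd a)).2.1
      rw [mu_pow_apply, mu_pow_apply, toAdd_ofAdd] at this
      rw [hf, this]; rfl
    have hfD : ∀ a, f ((zD : GaloisField v 2) ^ k.val * a) = (zD : GaloisField v 2) ^ k'.val * f a := by
      intro a
      have := (he (ofAdd a)).2.2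
      rw [mu_pow_apply, mu_pow_apply, toAdd_ofAdd] at this
      rw [hf, this]; rfl
    constructor
    · obtain ⟨m, hm⟩ := sing_inj (by norm_num) _ _ f hfC
      have h1 : ∀ m : ℕ, zC ^ v ^ m = zC := by
        intro m
        induction m with
        | zero => simp
        | succ m ih => rw [pow_succ, pow_mul, ih, pCv]
      have h2 : zC ^ j'.val = zC ^ j.val := by
        apply Units.ext
        rw [Units.val_pow_eq_pow_val, Units.val_pow_eq_pow_val, hm, ← pow_mul, mul_comm, pow_mul,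
          ← Units.val_pow_eq_pow_val zC (v ^ m), h1]
      have h3 := pow_injOn_Iio_orderOf (x := zC) (by rw [hzC]; exact ZMod.val_lt j')
        (by rw [hzC]; exact ZMod.val_lt j) h2
      exact ZMod.val_injective C h3.symm
    · have hfη : ∀ a, f (((zB ^ i.val * zD ^ k.val : (GaloisField v 2)ˣ) : GaloisField v 2) * a) =
          ((zB ^ i'.val * zD ^ k'.val : (GaloisField v 2)ˣ) : GaloisField v 2) * f a := by
        intro a
        rw [Units.val_mul, Units.val_mul, Units.val_pow_eq_pow_val, Units.val_pow_eq_pow_val,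
          Units.val_pow_eq_pow_val, Units.val_pow_eq_pow_val, mul_assoc, hfB, hfD, mul_assoc]
      obtain ⟨m, hm⟩ := sing_inj (by norm_num) _ _ f hfη
      have h0 : ∀ u : (GaloisField v 2)ˣ, u ^ v = u⁻¹ → ∀ m : ℕ,
          (m % 2 = 0 → u ^ v ^ m = u) ∧ (m % 2 = 1 → u ^ v ^ m = u⁻¹) := by
        intro u hu m
        induction m with
        | zero => simp
        | succ m ih =>
          rw [pow_succ, pow_mul]
          refine ⟨fun h => ?_, fun h => ?_⟩
          · rw [ih.2 (by omega), inv_pow, hu, inv_inv]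
          · rw [ih.1 (by omega), hu]
      have hη : (zB ^ i.val * zD ^ k.val) ^ v = (zB ^ i.val * zD ^ k.val)⁻¹ := by
        rw [mul_pow, ← pow_mul, ← pow_mul, mul_comm i.val, mul_comm k.val, pow_mul, pow_mul, pBv,
          pDv, mul_inv, inv_pow, inv_pow]
      have hm' : zB ^ i'.val * zD ^ k'.val = (zB ^ i.val * zD ^ k.val) ^ v ^ m := by
        apply Units.ext
        rw [Units.val_pow_eq_pow_val]
        exact hm
      have hcop : Nat.Coprime B D := (Nat.coprime_primes hB hD).2 hBD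
      -- separate the two components
      have sep : ∀ a c : ℤ, zB ^ a * zD ^ c = 1 → (a : ZMod B) = 0 ∧ (c : ZMod D) = 0 := by
        intro a c hac
        have e1 : zB ^ a = (zD ^ c)⁻¹ := eq_inv_of_mul_eq_one_left hac
        have e2 : (zB ^ a) ^ B = 1 := by
          rw [← zpow_natCast, ← zpow_mul, mul_comm, zpow_mul, zpow_natCast, ← hzB,
            pow_orderOf_eq_one, one_zpow]
        have e3 : (zB ^ a) ^ D = 1 := by
          rw [e1, inv_pow, ← zpow_natCast, ← zpow_mul, mul_comm, zpow_mul, zpow_natCast, ← hzD,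
            pow_orderOf_eq_one, one_zpow, inv_one]
        have e4 : zB ^ a = 1 := by
          have h1 := orderOf_dvd_of_pow_eq_one e2
          have h2 := orderOf_dvd_of_pow_eq_one e3
          have h3 := Nat.dvd_gcd h1 h2
          rw [hcop] at h3
          exact orderOf_eq_one_iff.1 (Nat.dvd_one.1 h3)
        have e5 : zD ^ c = 1 := by
          rw [e4, one_mul] at hac; exact hac
        have e6 := orderOf_dvd_iff_zpow_eq_one.2 e4
        have e7 := orderOf_dvd_iff_zpow_eq_one.2 e5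
        rw [hzB] at e6
        rw [hzD] at e7
        exact ⟨(ZMod.intCast_zmod_eq_zero_iff_dvd _ _).2 e6, (ZMod.intCast_zmod_eq_zero_iff_dvd _ _).2 e7⟩
      rcases Nat.mod_two_eq_zero_or_one m with hm0 | hm1
      · left
        rw [(h0 _ hη m).1 hm0] at hm'
        have := sep ((i.val : ℤ) - i'.val) ((k.val : ℤ) - k'.val) (by
          rw [zpow_sub, zpow_sub, zpow_natCast, zpow_natCast, zpow_natCast, zpow_natCast]
          have : zB ^ i.val * (zB ^ i'.val)⁻¹ * (zD ^ k.val * (zD ^ k'.val)⁻¹) =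
            (zB ^ i.val * zD ^ k.val) * (zB ^ i'.val * zD ^ k'.val)⁻¹ := by
            rw [mul_inv]; exact mul_mul_mul_comm _ _ _ _
          rw [this, ← hm', mul_inv_cancel])
        push_cast at this
        rw [ZMod.natCast_zmod_val, ZMod.natCast_zmod_val, ZMod.natCast_zmod_val,
          ZMod.natCast_zmod_val] at this
        exact ⟨sub_eq_zero.1 this.1, sub_eq_zero.1 this.2⟩
      · right
        rw [(h0 _ hη m).2 hm1] at hm'
        have := sep ((i.val : ℤ) + i'.val) ((k.val : ℤ) + k'.val) (by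
          rw [zpow_add, zpow_add, zpow_natCast, zpow_natCast, zpow_natCast, zpow_natCast]
          have : zB ^ i.val * (zB ^ i'.val) * (zD ^ k.val * (zD ^ k'.val)) =
            (zB ^ i.val * zD ^ k.val) * (zB ^ i'.val * zD ^ k'.val) := mul_mul_mul_comm _ _ _ _
          rw [this, hm', mul_inv_cancel])
        push_cast at this
        rw [ZMod.natCast_zmod_val, ZMod.natCast_zmod_val, ZMod.natCast_zmod_val,
          ZMod.natCast_zmod_val] at this
        exact ⟨eq_neg_of_add_eq_zero_left this.1, eq_neg_of_add_eq_zero_left this.2⟩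

end Pool.Agent.helper74.GN
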