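import Pool.Agent.helper57.GN.GN7b
import Pool.Agent.helper61.GN.GN7a
import Pool.Agent.helper62.GN.GN7c

/-!
# GN7d: the `B`-block
-/

set_option autoImplicit false

namespace Pool.Agent.helper74.GN

theorem blockWB {B w : ℕ} (hB : B.Prime) (hw : w.Prime) (h3 : 3 < B)
    (hwB : (w : ZMod B) = -1) : ∃ (A : Fin 2 → Type) (_ : ∀ i, Group (A i))
    (β : ∀ i, MulAut (A i)), (∀ i, Nat.card (A i) = w ^ 3) ∧ (∀ i, β i ^ B = 1) ∧
    (∀ i, β i ≠ 1) ∧
    (∀ (H : Type) [Group H], Nat.card H = w ^ 3 → ∀ b : MulAut H, b ^ B = 1 → b ≠ 1 →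
      ∃ (i : Fin 2) (u : (ZMod B)ˣ) (e : H ≃* A i), ∀ x,
        e (b x) = (β i ^ (u : ZMod B).val) (e x)) ∧
    (∀ i, ∃ e : A i ≃* A i, ∀ x, e ((β i)⁻¹ x) = β i (e x)) ∧
    (∀ (i j : Fin 2) (u : (ZMod B)ˣ), (∃ (e : A i ≃* A j) (a : A j), ∀ x,
      e ((β i ^ (u : ZMod B).val) x) = a * β j (e x) * a⁻¹) → i = j ∧ (u = 1 ∨ u = -1)) := by
  obtain ⟨A0, i0, β0, c0, p0, n0, r0, u0, k0⟩ := eab_unique hB hw h3 hwB
  obtain ⟨A1, i1, β1, c1, nc1, p1, n1, r1, u1⟩ := heis_exists hB hw h3 hwB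
  let g0 : Group A0 := i0.toGroup
  refine ⟨fun i => match i with | 0 => A0 | 1 => A1,
    fun i => match i with | 0 => g0 | 1 => i1,
    fun i => match i with | 0 => β0 | 1 => β1, ?_, ?_, ?_, ?_, ?_, ?_⟩
  · intro i
    match i with
    | 0 => exact c0
    | 1 => exact c1
  · intro i
    match i with
    | 0 => exact p0
    | 1 => exact p1
  · intro i
    match i with
    | 0 => exact n0
    | 1 => exact n1
  · intro H _ hH b hb hb1
    by_cases hc : ∀ x y : H, x * y = y * x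
    · obtain ⟨u, e, he⟩ := k0 H hH hc b hb hb1
      exact ⟨0, u, e, he⟩
    · push Not at hc
      obtain ⟨u, e, he⟩ := heis_unique hB hw h3 hwB H A1 hH c1 hc nc1 b β1 hb hb1 p1 n1
      exact ⟨1, u, e, he⟩
  · intro i
    match i with
    | 0 => exact r0
    | 1 => exact r1
  · intro i j u
    have nab : ∀ (e : A0 ≃* A1), False := by
      intro e
      obtain ⟨x, y, hxy⟩ := nc1
      apply hxy
      have h1 := mul_comm (e.symm x) (e.symm y)
      have h2 := congrArg e h1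
      simpa using h2
    match i, j with
    | 0, 0 =>
      rintro ⟨e, a, he⟩
      refine ⟨rfl, u0 u ⟨e, fun x => ?_⟩⟩
      have h1 := he x
      have h2 : a * β0 (e x) * a⁻¹ = β0 (e x) := by
        rw [mul_comm a (β0 (e x)), mul_assoc, mul_inv_cancel, mul_one]
      exact h1.trans h2
    | 0, 1 =>
      rintro ⟨e, a, he⟩
      exact (nab e).elim
    | 1, 0 =>
      rintro ⟨e, a, he⟩
      exact (nab e.symm).elim
    | 1, 1 =>
      rintro ⟨e, a, he⟩
      exact ⟨rfl, u1 u ⟨e, a, he⟩⟩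

end Pool.Agent.helper74.GN
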